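import Pool.Agent.H414.LT.Che
import Pool.Agent.H414.DF.Eng
import Pool.Agent.H414.DF.Tau
import Pool.Agent.H414.DF.W1
import Pool.Agent.H414.DF.Wt
import Pool.Agent.H414.DF.Ker
import Pool.Agent.H414.DF.Crt
import Pool.Agent.H414.DF.Mob
import Pool.Agent.H414.DF.Asg
import Pool.Agent.H414.DF.Upp
import Pool.Agent.H414.DF.Del
import Pool.Agent.H414.DF.Mom
import Pool.Agent.H414.DF.Bias
import Pool.Agent.H414.DF.Mas
import Pool.Agent.H414.DF.Pos
import Pool.Agent.H414.DF.Tot
import Pool.Agent.H414.DF.Cnt
import Pool.Agent.H414.DF.Sel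
import Pool.Agent.H414.DF.Blk
import Pool.Agent.H414.DF.Sum
import Pool.Agent.H414.DF.Modif
import Pool.Agent.H414.DF.Uni
import Pool.Agent.H414.DF.Fin

/-!
# What GRH and Artin's conjecture for the division fields say about the Lang-Trotter conjecture

`a p` are vectors of `r` integers with `(a p i) ^ 2 ≤ 4 p`, as the coefficients at `p` of `r` newforms of
weight two (or the traces of Frobenius of `r` elliptic curves). The Riemann hypothesis and Artin's
conjecture for the fields of the `q`-division points (Murty, Murty, Saradha) bound, uniformly in `q`, the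
difference between the sum over the primes `p ≤ x` of a function `F` of `p` and `a p` modulo `q` and the
expected value by `(∑ |F| ^ 2) ^ (1 / 2) x ^ (1 / 2 + ε)`, the sum being over the Galois group, that is by
`q ^ r * l2 F * x ^ (1 / 2 + ε)`. This is `HasBound`; expected values are taken with respect to laws `μ p` on
the vectors of integers, and the result holds for all reasonable laws (`IsRef`), for instance for
the uniform laws.

1. These bounds give `C x ^ ((3 r + 1) / (4 r + 1) + ε)` for the number of the primes `x < p ≤ 2 x` with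
`a p = t` (`x = 2 ^ k`), uniformly in `t`. For `r = 1` this is the exponent `4 / 5` of Murty, Murty and
Saradha.

2. The exponent is the exact strength of these hypotheses, even if one adds arbitrary twists: for arbitrary
twists `c i p` of absolute value at most `1` (for instance all Dirichlet characters and all `p ^ (i t)`,
`t` rational), for `δ > 0` and for arbitrary numbers `f k t` with sum at most
`2 ^ (k ((3 r + 1) / (4 r + 1) - δ))` over the vectors with `|t i| ≤ k` there is a system `a` with all the
bounds, such that for all large `k` exactly `f k t` of the primes `2 ^ k < p ≤ 2 ^ (k + 1)` have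
`a p = t`, for all `t` with `|t i| ≤ k`.

So neither `π_f (x, a) = O (x ^ s)` with `s < 4 / 5` nor any lower bound for `π_f (x, a)` follows from
these hypotheses.
-/

set_option autoImplicit false

namespace Pool.Agent.Results.MP_631487_nt.DivisionFieldsSharp

open Finset
open Pool.Agent.H414.LT (blk)
open Pool.Agent.H414.DF

/-- The exact strength of the Riemann hypothesis and Artin's conjecture for all the division fields of
`r` newforms of weight two in the Lang-Trotter problem: the exponent `(3 r + 1) / (4 r + 1)`. -/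
theorem result (r : ℕ) (hr : 1 ≤ r) :
    IsRef r (fun p b => if b ∈ box r (4 * p) then 1 / ((box r (4 * p)).card : ℝ) else 0) ∧
    ∀ μ : ℕ → (Fin r → ℤ) → ℝ, IsRef r μ →
      (∀ a : ℕ → Fin r → ℤ, IsSystem r a → HasBound r μ (fun _ _ => 1) a →
        ∀ ε : ℝ, 0 < ε → ∃ C : ℝ, ∀ (k : ℕ) (t : Fin r → ℤ),
          (((blk k).filter fun p => a p = t).card : ℝ) ≤
            C * (2 : ℝ) ^ (((3 * r + 1) / (4 * r + 1) + ε) * (k : ℝ))) ∧
      (∀ c : ℕ → ℕ → ℂ, (∀ i p, ‖c i p‖ ≤ 1) → ∀ δ : ℝ, 0 < δ →
        ∀ f : ℕ → (Fin r → ℤ) → ℕ,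
        (∀ k, ((∑ t ∈ box r (k ^ 2), f k t : ℕ) : ℝ) ≤
          (2 : ℝ) ^ (((3 * r + 1) / (4 * r + 1) - δ) * (k : ℝ))) →
        ∃ a : ℕ → Fin r → ℤ, IsSystem r a ∧ HasBound r μ c a ∧
          ∃ k₀ : ℕ, ∀ k, k₀ ≤ k → ∀ t ∈ box r (k ^ 2),
            ((blk k).filter fun p => a p = t).card = f k t) := by
  have hr' : (1 : ℝ) ≤ r := by exact_mod_cast hr
  have hth : (1 : ℝ) - r * th r = (3 * r + 1) / (4 * r + 1) := by
    unfold th
    field_simp
    ring
  have hK : S_K := kbd
  have hTAU : S_TAU := tau
  have hCHE := Pool.Agent.H414.LT.che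
  have hDEL : S_DEL := del hK crt mob
  have hLT : S_LT := lt hDEL
  have hMOM : S_MOM := mom hK hTAU
  have hBIAS : S_BIAS := bias hDEL hLT hMOM hTAU
  refine ⟨uni r, fun μ hμ => ⟨fun a ha hb ε hε => ?_, fun c hc δ hδ f hf => ?_⟩⟩
  · obtain ⟨C, hC⟩ := upp r μ hr hμ a ha hb ε hε
    refine ⟨C, fun k t => (hC k t).trans (le_of_eq ?_)⟩
    unfold e2
    rw [hth, mul_comm (k : ℝ)]
  · refine construct (wex wex1) (mas hCHE hK hLT) (pos hK hTAU hLT) tot (cnt hK hTAU hLT)
      (sel eng) (blo hBIAS) summ (modif hCHE asg) r hr μ hμ c hc δ hδ f fun k => ?_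
    refine (hf k).trans (le_of_eq ?_)
    unfold e2
    rw [hth, mul_comm (k : ℝ)]

end Pool.Agent.Results.MP_631487_nt.DivisionFieldsSharp
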